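import Mathlib

/-!
# No `ℳ`-structure corresponds to `(Ã₁, m)` for `m ≥ 2`

The distinguished element `1` of a weak `ℳ`-structure is a representation of the quiver with
underlying graph `Γ`, and the condition `𝒜 ∩ ℬ = ℂ 1` says that its only endomorphisms are the
scalars. For `Γ = Ã₁` it is a pair `φ₀, φ₁` of `m × m` matrices, and for `m ≥ 2` such a pair always
has a nonscalar endomorphism: the span of `φ₀, φ₁` contains a singular matrix `P ≠ 0` or `P = 0`;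
say that it is spanned by `P, Q`, that `P v = 0` and `g P = 0`; then `(v (g Q), (Q v) g)`, or
`(v w, 0)` for any `w` if this vanishes, is an endomorphism of rank one.
-/

set_option autoImplicit false

open MulOpposite Matrix

namespace Pool.Agent.Results.MP_b9cab9_al.NoMStructure

section defs

variable (𝒜 ℬ L : Type) [Ring 𝒜] [Algebra ℂ 𝒜] [Ring ℬ] [Algebra ℂ ℬ] [AddCommGroup L] [Module ℂ L]

/-- Commuting actions of `ℬ` from the left and of `𝒜` from the right on `L`. -/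
structure Actions where
  /-- the left action of `ℬ` on `L` -/
  lact : ℬ →ₐ[ℂ] Module.End ℂ L
  /-- the right action of `𝒜` on `L` -/
  ract : 𝒜ᵐᵒᵖ →ₐ[ℂ] Module.End ℂ L
  /-- the actions commute -/
  comm : ∀ (b : ℬ) (a : 𝒜) (v : L), lact b (ract (op a) v) = ract (op a) (lact b v)

/-- The subspaces `𝒜, ℬ ⊆ L`, given as algebras with injective linear maps `iA, iB` to `L`. -/
structure Subspaces where
  /-- the embedding of `𝒜` -/
  iA : 𝒜 →ₗ[ℂ] L
  /-- the embedding of `ℬ` -/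
  iB : ℬ →ₗ[ℂ] L
  iA_injective : Function.Injective iA
  iB_injective : Function.Injective iB
  /-- both algebras have the unit `1 ∈ L` -/
  one_eq : iA 1 = iB 1
  /-- `𝒜 ∩ ℬ = ℂ 1` -/
  inter : ∀ (a : 𝒜) (b : ℬ), iA a = iB b → ∃ c : ℂ, iA a = c • iA 1

variable {𝒜 ℬ L}

/-- `b v`, for `b ∈ ℬ` and `v ∈ L` -/
def Actions.l (X : Actions 𝒜 ℬ L) (b : ℬ) (v : L) : L := X.lact b v

/-- `v a`, for `v ∈ L` and `a ∈ 𝒜` -/
def Actions.r (X : Actions 𝒜 ℬ L) (v : L) (a : 𝒜) : L := X.ract (op a) v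

/-- `a ∈ 𝒜` as an element of `L` -/
def Subspaces.a (T : Subspaces 𝒜 ℬ L) (a : 𝒜) : L := T.iA a

/-- `b ∈ ℬ` as an element of `L` -/
def Subspaces.b (T : Subspaces 𝒜 ℬ L) (b : ℬ) : L := T.iB b

/-- The value `(v, w)` of the form. -/
def val (form : L →ₗ[ℂ] L →ₗ[ℂ] ℂ) (v w : L) : ℂ := form v w

/-- The actions restrict to the multiplications of `ℬ` and of `𝒜`. -/
structure Restrict (T : Subspaces 𝒜 ℬ L) (X : Actions 𝒜 ℬ L) : Prop where
  left : ∀ b b' : ℬ, X.l b (T.b b') = T.b (b * b')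
  right : ∀ a a' : 𝒜, X.r (T.a a) a' = T.a (a * a')

/-- The conditions on the bilinear form. -/
structure GoodForm (T : Subspaces 𝒜 ℬ L) (X : Actions 𝒜 ℬ L) (form : L →ₗ[ℂ] L →ₗ[ℂ] ℂ) :
    Prop where
  symm : ∀ v w : L, val form v w = val form w v
  nondegenerate : ∀ v : L, (∀ w : L, val form v w = 0) → v = 0
  zero_A : ∀ a₁ a₂ : 𝒜, val form (T.a a₁) (T.a a₂) = 0
  zero_B : ∀ b₁ b₂ : ℬ, val form (T.b b₁) (T.b b₂) = 0
  left : ∀ (b₁ b₂ : ℬ) (v : L), val form (T.b (b₁ * b₂)) v = val form (T.b b₁) (X.l b₂ v)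
  right : ∀ (v : L) (a₁ a₂ : 𝒜), val form v (T.a (a₁ * a₂)) = val form (X.r v a₁) (T.a a₂)

variable (𝒜 ℬ L)

/-- A weak `ℳ`-structure on `L`. -/
structure WeakMStructure extends Subspaces 𝒜 ℬ L, Actions 𝒜 ℬ L where
  /-- the bilinear form -/
  form : L →ₗ[ℂ] L →ₗ[ℂ] ℂ
  restrict : Restrict toSubspaces toActions
  goodForm : GoodForm toSubspaces toActions form

end defs

/-- The space `⨁ Hom(V_i, W_j)^(a i j)`, with `dim V_i = m i`, `dim W_j = n j`. -/
abbrev HomSpace {r s : ℕ} (a : Fin r → Fin s → ℕ) (m : Fin r → ℕ) (n : Fin s → ℕ) : Type :=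
  ∀ (i : Fin r) (j : Fin s), Fin (a i j) → Matrix (Fin (n j)) (Fin (m i)) ℂ

/-- The algebra `⨁ End(V_i)`, with `dim V_i = m i`. -/
abbrev EndAlg {r : ℕ} (m : Fin r → ℕ) : Type := ∀ i : Fin r, Matrix (Fin (m i)) (Fin (m i)) ℂ

/-- The coordinates of `v ∈ L`. -/
def coordL {r s : ℕ} {a : Fin r → Fin s → ℕ} {m : Fin r → ℕ} {n : Fin s → ℕ} {L : Type}
    [AddCommGroup L] [Module ℂ L] (e : L ≃ₗ[ℂ] HomSpace a m n) (v : L) (i : Fin r) (j : Fin s)
    (k : Fin (a i j)) : Matrix (Fin (n j)) (Fin (m i)) ℂ := e v i j k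

/-- The coordinates of an element of the algebra. -/
def coordA {r : ℕ} {m : Fin r → ℕ} {𝒜 : Type} [Ring 𝒜] [Algebra ℂ 𝒜] (e : 𝒜 ≃ₐ[ℂ] EndAlg m)
    (x : 𝒜) (i : Fin r) : Matrix (Fin (m i)) (Fin (m i)) ℂ := e x i

/-- The weak `ℳ`-structure `S` has `𝒜 ≅ ⨁ End(V_i)`, `ℬ ≅ ⨁ End(W_j)` with `dim V_i = m i`,
`dim W_j = n j`, and `L ≅ ⨁ (V_i^* ⊗ W_j)^(a i j) = ⨁ Hom(V_i, W_j)^(a i j)` as a module over both
algebras. -/
structure Multiplicities {r s : ℕ} (a : Fin r → Fin s → ℕ) (m : Fin r → ℕ) (n : Fin s → ℕ)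
    {𝒜 ℬ L : Type} [Ring 𝒜] [Algebra ℂ 𝒜] [Ring ℬ] [Algebra ℂ ℬ] [AddCommGroup L] [Module ℂ L]
    (X : Actions 𝒜 ℬ L) where
  /-- `𝒜 ≅ ⨁ End(V_i)` -/
  eA : 𝒜 ≃ₐ[ℂ] EndAlg m
  /-- `ℬ ≅ ⨁ End(W_j)` -/
  eB : ℬ ≃ₐ[ℂ] EndAlg n
  /-- `L ≅ ⨁ Hom(V_i, W_j)^(a i j)` -/
  eL : L ≃ₗ[ℂ] HomSpace a m n
  left : ∀ (b : ℬ) (v : L) i j k, coordL eL (X.l b v) i j k = coordA eB b j * coordL eL v i j k
  right : ∀ (x : 𝒜) (v : L) i j k, coordL eL (X.r v x) i j k = coordL eL v i j k * coordA eA x i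

/-- A rank one matrix is not scalar. -/
theorem not_scalar {m : ℕ} (hm : 2 ≤ m) (v w : Fin m → ℂ) (hv : v ≠ 0) (hw : w ≠ 0) (c : ℂ) :
    vecMulVec v w ≠ c • (1 : Matrix (Fin m) (Fin m) ℂ) := by
  intro h
  have h1 : ∀ i j, v i * w j = if i = j then c else 0 := by
    intro i j
    have := congrFun (congrFun h i) j
    simpa [vecMulVec_apply, Matrix.one_apply] using this
  let i0 : Fin m := ⟨0, by omega⟩
  let i1 : Fin m := ⟨1, by omega⟩
  have hne : i0 ≠ i1 := by simp [i0, i1]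
  have e1 := h1 i0 i0
  have e2 := h1 i1 i1
  have e3 := h1 i0 i1
  rw [if_pos rfl] at e1 e2
  rw [if_neg hne] at e3
  have hc : c * c = 0 := by
    calc c * c = (v i0 * w i0) * (v i1 * w i1) := by rw [e1, e2]
      _ = (v i0 * w i1) * (v i1 * w i0) := by ring
      _ = 0 := by rw [e3, zero_mul]
  have hc0 : c = 0 := by simpa using hc
  obtain ⟨i, hi⟩ := Function.ne_iff.1 hv
  obtain ⟨j, hj⟩ := Function.ne_iff.1 hw
  have h2 := h1 i j
  rw [hc0, ite_self] at h2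
  rcases mul_eq_zero.1 h2 with h3 | h3
  · exact hi h3
  · exact hj h3

/-- A pair of matrices with singular first member has a nonscalar endomorphism. -/
theorem exists_endo_of_det {m : ℕ} (hm : 2 ≤ m) (P Q : Matrix (Fin m) (Fin m) ℂ)
    (hP : P.det = 0) : ∃ a b : Matrix (Fin m) (Fin m) ℂ, b * P = P * a ∧ b * Q = Q * a ∧
      ¬ ∃ c : ℂ, a = c • 1 ∧ b = c • 1 := by
  obtain ⟨v, hv, hPv⟩ := exists_mulVec_eq_zero_iff.2 hP
  obtain ⟨g, hg, hgP⟩ := exists_vecMul_eq_zero_iff.2 hP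
  by_cases h1 : g ᵥ* Q = 0
  · by_cases h2 : Q *ᵥ v = 0
    · let w : Fin m → ℂ := fun _ => 1
      have hw : w ≠ 0 := by
        intro h
        have := congrFun h ⟨0, by omega⟩
        simp [w] at this
      refine ⟨vecMulVec v w, 0, ?_, ?_, ?_⟩
      · rw [zero_mul, mul_vecMulVec, hPv, zero_vecMulVec]
      · rw [zero_mul, mul_vecMulVec, h2, zero_vecMulVec]
      · rintro ⟨c, hc, -⟩
        exact not_scalar hm v w hv hw c hc
    · refine ⟨vecMulVec v (g ᵥ* Q), vecMulVec (Q *ᵥ v) g, ?_, ?_, ?_⟩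
      · rw [vecMulVec_mul, hgP, mul_vecMulVec, hPv, vecMulVec_zero, zero_vecMulVec]
      · rw [vecMulVec_mul, mul_vecMulVec]
      · rintro ⟨c, -, hc⟩
        exact not_scalar hm _ _ h2 hg c hc
  · refine ⟨vecMulVec v (g ᵥ* Q), vecMulVec (Q *ᵥ v) g, ?_, ?_, ?_⟩
    · rw [vecMulVec_mul, hgP, mul_vecMulVec, hPv, vecMulVec_zero, zero_vecMulVec]
    · rw [vecMulVec_mul, mul_vecMulVec]
    · rintro ⟨c, hc, -⟩
      exact not_scalar hm _ _ hv h1 c hc

/-- Every pair of `m × m` matrices, `m ≥ 2`, has a nonscalar endomorphism. -/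
theorem exists_endo {m : ℕ} (hm : 2 ≤ m) (f g : Matrix (Fin m) (Fin m) ℂ) :
    ∃ a b : Matrix (Fin m) (Fin m) ℂ, b * f = f * a ∧ b * g = g * a ∧
      ¬ ∃ c : ℂ, a = c • 1 ∧ b = c • 1 := by
  by_cases hg : g.det = 0
  · obtain ⟨a, b, h1, h2, h3⟩ := exists_endo_of_det hm g f hg
    exact ⟨a, b, h2, h1, h3⟩
  · haveI : Nonempty (Fin m) := ⟨⟨0, by omega⟩⟩
    have : Nontrivial (Fin m → ℂ) := Function.nontrivial
    have hu : IsUnit g.det := isUnit_iff_ne_zero.2 hg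
    obtain ⟨t, ht⟩ := Module.End.exists_eigenvalue (Matrix.toLin' (g⁻¹ * f))
    obtain ⟨v, hv⟩ := ht.exists_hasEigenvector
    have h1 : (g⁻¹ * f) *ᵥ v = t • v := by
      have := hv.apply_eq_smul
      rwa [Matrix.toLin'_apply] at this
    have h2 : f *ᵥ v = t • (g *ᵥ v) := by
      have h3 : g *ᵥ ((g⁻¹ * f) *ᵥ v) = f *ᵥ v := by
        rw [Matrix.mulVec_mulVec, ← Matrix.mul_assoc, Matrix.mul_nonsing_inv _ hu, Matrix.one_mul]
      rw [← h3, h1, Matrix.mulVec_smul]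
    have hdet : (f - t • g).det = 0 := by
      rw [← exists_mulVec_eq_zero_iff]
      refine ⟨v, hv.2, ?_⟩
      rw [Matrix.sub_mulVec, Matrix.smul_mulVec, h2, sub_self]
    obtain ⟨a, b, h3, h4, h5⟩ := exists_endo_of_det hm (f - t • g) g hdet
    refine ⟨a, b, ?_, h4, h5⟩
    have h6 : f = (f - t • g) + t • g := by simp
    rw [h6, mul_add, add_mul, h3, mul_smul_comm, smul_mul_assoc, h4]

/-- **Q1 is false**: for `Γ = Ã₁` (two vertices joined by a double edge, `J = (1, 1)`) and every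
`m ≥ 2` no weak `ℳ`-structure, in particular no `ℳ`-structure, corresponds to `(Γ, m)`. -/
theorem result (m : ℕ) (hm : 2 ≤ m) (𝒜 ℬ L : Type) [Ring 𝒜] [Algebra ℂ 𝒜] [Ring ℬ] [Algebra ℂ ℬ]
    [AddCommGroup L] [Module ℂ L] (S : WeakMStructure 𝒜 ℬ L) :
    IsEmpty (Multiplicities (r := 1) (s := 1) (fun _ _ => 2) (fun _ => m) (fun _ => m)
      S.toActions) := by
  refine ⟨fun M => ?_⟩
  set φ := M.eL (S.iA 1) with hφ
  obtain ⟨a, b, h0, h1, h2⟩ := exists_endo hm (φ 0 0 0) (φ 0 0 1)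
  apply h2
  set x : 𝒜 := M.eA.symm (fun _ => a) with hx
  set y : ℬ := M.eB.symm (fun _ => b) with hy
  have hxy : S.iB y = S.iA x := by
    apply M.eL.injective
    funext i j k
    have e1 : S.iB y = S.toActions.l y (S.iB 1) :=
      (congrArg S.iB (mul_one y)).symm.trans (S.restrict.left y 1).symm
    have e2 : S.iA x = S.toActions.r (S.iA 1) x :=
      (congrArg S.iA (one_mul x)).symm.trans (S.restrict.right 1 x).symm
    have e3 : coordA M.eA x i = a := by rw [coordA, hx, AlgEquiv.apply_symm_apply]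
    have e4 : coordA M.eB y j = b := by rw [coordA, hy, AlgEquiv.apply_symm_apply]
    have e5 := M.left y (S.iB 1) i j k
    have e6 := M.right x (S.iA 1) i j k
    rw [← e1, ← S.one_eq] at e5
    rw [← e2] at e6
    show coordL M.eL (S.iB y) i j k = coordL M.eL (S.iA x) i j k
    rw [e5, e6, e3, e4]
    show b * φ i j k = φ i j k * a
    have hi : i = 0 := Subsingleton.elim _ _
    have hj : j = 0 := Subsingleton.elim _ _
    subst hi hj
    fin_cases k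
    · exact h0
    · exact h1
  obtain ⟨c, hc⟩ := S.inter x y hxy.symm
  refine ⟨c, ?_, ?_⟩
  · have e1 : x = c • 1 := by
      apply S.iA_injective
      rw [hc, map_smul]
    have e2 : M.eA x 0 = a := by rw [hx, AlgEquiv.apply_symm_apply]
    rw [← e2, e1, map_smul, map_one]
    rfl
  · have e1 : y = c • 1 := by
      apply S.iB_injective
      rw [hxy, hc, map_smul, S.one_eq]
    have e2 : M.eB y 0 = b := by rw [hy, AlgEquiv.apply_symm_apply]
    rw [← e2, e1, map_smul, map_one]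
    rfl

end Pool.Agent.Results.MP_b9cab9_al.NoMStructure
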